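import Pool.Agent.H7.KSAT.S1Defs

/-!
# Greedy decomposition, one level
-/

set_option autoImplicit false

namespace Pool.KSAT

open Finset Real

open Classical in
theorem grd0_aux (X : Type) [Fintype X] (μ : X → ℝ) (𝒩 : (X → Prop) → Prop) (θ : ℝ)
    (hμ : ∀ x, 0 ≤ μ x) (hθ : 0 < θ) : ∀ (n : ℕ) (S : X → Prop),
    (Finset.univ.filter S).card = n → ∃ (N : ℕ) (c : X → ℕ), (∀ x, c x ≤ N) ∧
      (∀ x, c x ≠ 0 → S x) ∧
      N * θ ≤ (∑ x, if S x then μ x else 0) ∧
      (∀ i, 0 < i → i ≤ N → ∃ A, 𝒩 A ∧ (∀ x, c x = i → A x) ∧
        θ ≤ ∑ x, if c x = i then μ x else 0) ∧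
      ∀ A, 𝒩 A → (∑ x, if S x ∧ c x = 0 ∧ A x then μ x else 0) < θ := by
  intro n
  induction n using Nat.strong_induction_on with
  | _ n ih =>
    intro S hS
    by_cases h : ∀ A, 𝒩 A → (∑ x, if S x ∧ A x then μ x else 0) < θ
    · refine ⟨0, fun _ => 0, fun _ => le_refl _, fun x hx => absurd rfl hx, ?_, ?_, ?_⟩
      · simp only [Nat.cast_zero, zero_mul]
        exact Finset.sum_nonneg fun x _ => by
          split_ifs
          · exact hμ x
          · exact le_refl _
      · intro i h1 h2
        omega
      · intro A hA
        refine lt_of_le_of_lt (le_of_eq ?_) (h A hA)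
        refine Finset.sum_congr rfl fun x _ => ?_
        simp
    · simp only [not_forall, not_lt] at h
      obtain ⟨A, hA, hA2⟩ := h
      obtain ⟨T, hT⟩ : ∃ T : X → Prop, ∀ x, T x ↔ S x ∧ ¬ A x := ⟨_, fun _ => Iff.rfl⟩
      have hlt : (Finset.univ.filter T).card < n := by
        rw [← hS]
        refine Finset.card_lt_card ?_
        rw [Finset.ssubset_iff_subset_ne]
        refine ⟨fun x hx => ?_, fun he => ?_⟩
        · simp only [Finset.mem_filter, Finset.mem_univ, true_and] at hx ⊢
          exact ((hT x).1 hx).1
        · have h0 : (∑ x, if S x ∧ A x then μ x else 0) = 0 := by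
            refine Finset.sum_eq_zero fun x _ => ?_
            rw [if_neg]
            rintro ⟨h1, h2⟩
            have h3 : x ∈ Finset.univ.filter S := by simp [h1]
            rw [← he] at h3
            simp only [Finset.mem_filter, Finset.mem_univ, true_and] at h3
            exact ((hT x).1 h3).2 h2
          linarith
      obtain ⟨N, c, h1, h2, h3, h4, h5⟩ := ih _ hlt T rfl
      refine ⟨N + 1, fun x => if S x ∧ A x then N + 1 else c x, ?_, ?_, ?_, ?_, ?_⟩
      · intro x
        dsimp only
        split_ifs
        · exact le_refl _
        · exact le_trans (h1 x) (Nat.le_succ N)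
      · intro x hx
        dsimp only at hx
        split_ifs at hx with hc
        · exact hc.1
        · exact ((hT x).1 (h2 x hx)).1
      · have hsum : (∑ x, if S x then μ x else 0) =
            (∑ x, if T x then μ x else 0) + ∑ x, if S x ∧ A x then μ x else 0 := by
          rw [← Finset.sum_add_distrib]
          refine Finset.sum_congr rfl fun x _ => ?_
          have hTx := hT x
          by_cases hs : S x <;> by_cases ha : A x <;> simp [hs, ha, hTx]
        rw [hsum]
        push_cast
        linarith
      · intro i hi1 hi2
        rcases Nat.lt_or_ge N i with hi | hi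
        · have hi3 : i = N + 1 := by omega
          have key : ∀ x, (if S x ∧ A x then N + 1 else c x) = i ↔ S x ∧ A x := by
            intro x
            constructor
            · intro hx
              by_contra hn
              rw [if_neg hn] at hx
              have := h1 x
              omega
            · intro hx
              rw [if_pos hx, hi3]
          refine ⟨A, hA, fun x hx => ((key x).1 hx).2, ?_⟩
          refine le_trans hA2 (le_of_eq (Finset.sum_congr rfl fun x _ => ?_))
          by_cases hx : S x ∧ A x
          · rw [if_pos hx, if_pos ((key x).2 hx)]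
          · rw [if_neg hx, if_neg (fun hh => hx ((key x).1 hh))]
        · obtain ⟨A', hA', hA'2, hA'3⟩ := h4 i hi1 hi
          have key : ∀ x, (if S x ∧ A x then N + 1 else c x) = i ↔ c x = i := by
            intro x
            constructor
            · intro hx
              by_cases hn : S x ∧ A x
              · rw [if_pos hn] at hx
                omega
              · rw [if_neg hn] at hx
                exact hx
            · intro hx
              have h6 : S x ∧ ¬ A x := (hT x).1 (h2 x (by omega))
              rw [if_neg (fun hh => h6.2 hh.2)]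
              exact hx
          refine ⟨A', hA', fun x hx => hA'2 x ((key x).1 hx), ?_⟩
          refine le_trans hA'3 (le_of_eq (Finset.sum_congr rfl fun x _ => ?_))
          by_cases hx : c x = i
          · rw [if_pos hx, if_pos ((key x).2 hx)]
          · rw [if_neg hx, if_neg (fun hh => hx ((key x).1 hh))]
      · intro A' hA'
        refine lt_of_le_of_lt (le_of_eq ?_) (h5 A' hA')
        refine Finset.sum_congr rfl fun x _ => ?_
        have key : (S x ∧ (if S x ∧ A x then N + 1 else c x) = 0 ∧ A' x) ↔
            (T x ∧ c x = 0 ∧ A' x) := by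
          have hTx := hT x
          by_cases hs : S x <;> by_cases ha : A x <;> simp [hs, ha, hTx]
        by_cases hx : T x ∧ c x = 0 ∧ A' x
        · rw [if_pos hx, if_pos (key.2 hx)]
        · rw [if_neg hx, if_neg (fun hh => hx (key.1 hh))]

theorem grd0_thm : GRD0Stmt := by
  intro X _ μ 𝒩 θ hμ hθ S
  exact grd0_aux X μ 𝒩 θ hμ hθ _ S rfl

end Pool.KSAT
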